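import Mathlib

/-!
# Counting regular indices: the elementary part
-/

set_option autoImplicit false

namespace Pool.Agent.R361

open Finset

/-- If `2 N ≤ (2 r + 1) (3 r + 1)` then `√(N / 3) ≤ r + 5 / 12`. -/
lemma real_bound (r N : ℕ) (h : 2 * N ≤ (2 * r + 1) * (3 * r + 1)) :
    Real.sqrt N ≤ Real.sqrt 3 * (r + 5 / 12) := by
  have h1 : (2 * N : ℝ) ≤ (2 * r + 1) * (3 * r + 1) := by exact_mod_cast h
  have h2 : (0 : ℝ) ≤ r := Nat.cast_nonneg _
  rw [show Real.sqrt 3 * ((r : ℝ) + 5 / 12) = Real.sqrt (3 * (r + 5 / 12) ^ 2) by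
    rw [Real.sqrt_mul (by norm_num), Real.sqrt_sq (by positivity)]]
  apply Real.sqrt_le_sqrt
  nlinarith

/-- `(2/3) K ^ (3/2) ≤ ∑ √N` -/
lemma sum_sqrt (K : ℕ) : 2 * (Real.sqrt K) ^ 3 ≤ 3 * ∑ N ∈ Icc 1 K, Real.sqrt (N : ℝ) := by
  induction K with
  | zero => simp
  | succ K ih =>
    rw [Finset.sum_Icc_succ_top (by omega), mul_add]
    set x := Real.sqrt (K : ℝ) with hx
    set y := Real.sqrt ((K + 1 : ℕ) : ℝ) with hy
    have hx0 : 0 ≤ x := Real.sqrt_nonneg _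
    have hy0 : 0 ≤ y := Real.sqrt_nonneg _
    have hx2 : x ^ 2 = K := Real.sq_sqrt (Nat.cast_nonneg _)
    have hy2 : y ^ 2 = K + 1 := by
      rw [hy, Real.sq_sqrt (Nat.cast_nonneg _)]
      push_cast; ring
    have hxy : x ≤ y := Real.sqrt_le_sqrt (by push_cast; linarith)
    have hd : (y - x) * (y + x) = 1 := by nlinarith
    have hpos : 0 < y + x := by
      by_contra hcon
      have : y + x = 0 := by linarith
      rw [this, mul_zero] at hd
      norm_num at hd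
    have key : 2 * y ^ 3 - 2 * x ^ 3 ≤ 3 * y := by
      have h1 : (2 * y ^ 3 - 2 * x ^ 3) * (y + x) ≤ 3 * y * (y + x) := by
        have : (2 * y ^ 3 - 2 * x ^ 3) * (y + x) = 2 * (y ^ 2 + x * y + x ^ 2) * ((y - x) * (y + x)) := by
          ring
        rw [this, hd]
        nlinarith
      exact le_of_mul_le_mul_right h1 hpos
    linarith

/-- explicit lower bound for `r` -/
def gg (N : ℕ) : ℕ :=
  if N ≤ 1 then 0 else if N ≤ 6 then 1 else if N ≤ 17 then 2 else if N ≤ 35 then 3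
    else if N ≤ 58 then 4 else 5

lemma gg_le (r N : ℕ) (h : 2 * N ≤ (2 * r + 1) * (3 * r + 1)) : gg N ≤ r := by
  by_contra hcon
  push Not at hcon
  have h5 : gg N ≤ 5 := by
    unfold gg
    split_ifs <;> omega
  have hr : r ≤ 4 := by omega
  unfold gg at hcon
  interval_cases r <;> split_ifs at hcon <;> omega

lemma small (K : ℕ) (h2 : 2 ≤ K) (hK : K < 70) : K ^ 3 ≤ 9 * (∑ N ∈ Icc 2 K, gg N) ^ 2 := by
  interval_cases K <;> decide

/-- the count -/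
lemma count (K s : ℕ) (a : ℕ → ℕ) (ha : ∀ N, 2 ≤ N → N ≤ K → 2 * N ≤ (2 * a N + 1) * (3 * a N + 1))
    (hs : ∑ N ∈ Icc 2 K, a N ≤ s ^ 2) (hs1 : 1 ≤ K → 1 ≤ s) : K ^ 3 ≤ 9 * s ^ 4 := by
  rcases Nat.lt_or_ge K 70 with hK | hK
  · have h1 : ∑ N ∈ Icc 2 K, gg N ≤ ∑ N ∈ Icc 2 K, a N := by
      refine Finset.sum_le_sum fun N hN => ?_
      rw [Finset.mem_Icc] at hN
      exact gg_le _ _ (ha N hN.1 hN.2)
    rcases Nat.lt_or_ge K 2 with h0 | h0
    · rcases Nat.eq_zero_or_pos K with rfl | h00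
      · simp
      · have : K = 1 := by omega
        subst this
        have h3 := hs1 le_rfl
        have h4 : 1 ≤ s ^ 4 := Nat.one_le_pow _ _ h3
        omega
    · have h2 := small K h0 hK
      calc K ^ 3 ≤ 9 * (∑ N ∈ Icc 2 K, gg N) ^ 2 := h2
        _ ≤ 9 * (s ^ 2) ^ 2 := by
            have h5 : ∑ N ∈ Icc 2 K, gg N ≤ s ^ 2 := h1.trans hs
            gcongr
        _ = 9 * s ^ 4 := by ring
  · have h1 : ∑ N ∈ Icc 2 K, Real.sqrt (N : ℝ) ≤
        Real.sqrt 3 * ((∑ N ∈ Icc 2 K, a N : ℕ) + 5 / 12 * (K - 1)) := by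
      have h2 : ∀ N ∈ Icc 2 K, Real.sqrt (N : ℝ) ≤ Real.sqrt 3 * ((a N : ℝ) + 5 / 12) := by
        intro N hN
        rw [Finset.mem_Icc] at hN
        exact real_bound _ _ (ha N hN.1 hN.2)
      refine (Finset.sum_le_sum h2).trans (le_of_eq ?_)
      rw [← Finset.mul_sum, Finset.sum_add_distrib, Finset.sum_const, Nat.card_Icc]
      push_cast
      rw [nsmul_eq_mul, Nat.cast_sub (by omega)]
      push_cast
      ring
    have h3 := sum_sqrt K
    have h4 : ∑ N ∈ Icc 1 K, Real.sqrt (N : ℝ) = 1 + ∑ N ∈ Icc 2 K, Real.sqrt (N : ℝ) := by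
      rw [← Finset.add_sum_Ioc_eq_sum_Icc (by omega : 1 ≤ K)]
      simp only [Nat.cast_one, Real.sqrt_one]
      congr 1
    have hK' : (70 : ℝ) ≤ K := by exact_mod_cast hK
    set t := Real.sqrt (K : ℝ) with ht
    have ht2 : t ^ 2 = K := Real.sq_sqrt (Nat.cast_nonneg _)
    have ht0 : 0 ≤ t := Real.sqrt_nonneg _
    have ht8 : (8.36 : ℝ) ≤ t := by
      rw [ht]
      apply Real.le_sqrt_of_sq_le
      norm_num
      linarith
    set S : ℝ := ((∑ N ∈ Icc 2 K, a N : ℕ) : ℝ) with hS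
    have hs' : S ≤ (s : ℝ) ^ 2 := by
      rw [hS]
      exact_mod_cast hs
    set q := Real.sqrt 3 with hq
    have hq2 : q ^ 2 = 3 := Real.sq_sqrt (by norm_num)
    have hq0 : 0 ≤ q := Real.sqrt_nonneg _
    have hq1 : q ≤ 1.7321 := by
      rw [hq]
      apply Real.sqrt_le_iff.2
      norm_num
    have hq1' : (1.732 : ℝ) ≤ q := by
      rw [hq]
      apply Real.le_sqrt_of_sq_le
      norm_num
    -- 2 t^3 ≤ 3 (1 + q (S + 5/12 (t^2-1)))
    have h5 : 2 * t ^ 3 ≤ 3 * (1 + q * (S + 5 / 12 * (t ^ 2 - 1))) := by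
      rw [h4] at h3
      rw [ht2]
      linarith
    have h6 : t ^ 3 ≤ 3 * S := by
      -- multiply by q
      have h7 : 2 * t ^ 3 * q ≤ 3 * (q + 3 * (S + 5 / 12 * (t ^ 2 - 1))) := by
        have := mul_le_mul_of_nonneg_right h5 hq0
        nlinarith
      have h8 : 2 * t ^ 3 * 1.732 ≤ 2 * t ^ 3 * q := by
        have : 0 ≤ 2 * t ^ 3 := by positivity
        exact mul_le_mul_of_nonneg_left hq1' this
      have h9 : 3 * (5 / 4 * (t ^ 2 - 1)) + 3 * 1.7321 ≤ 0.464 * t ^ 3 := by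
        nlinarith [mul_nonneg ht0 ht0]
      nlinarith
    have h10 : t ^ 3 ≤ 3 * (s : ℝ) ^ 2 := by linarith
    have h11 : (t ^ 3) ^ 2 ≤ (3 * (s : ℝ) ^ 2) ^ 2 := by
      have : 0 ≤ t ^ 3 := by positivity
      gcongr
    have h12 : (K : ℝ) ^ 3 ≤ 9 * (s : ℝ) ^ 4 := by
      have e1 : (t ^ 3) ^ 2 = (K : ℝ) ^ 3 := by
        rw [← ht2]; ring
      rw [← e1]
      calc (t ^ 3) ^ 2 ≤ (3 * (s : ℝ) ^ 2) ^ 2 := h11
        _ = 9 * (s : ℝ) ^ 4 := by ring
    exact_mod_cast h12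

end Pool.Agent.R361
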